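import Pool.Agent.P8H58.DL.StmA

/-! # Project DL: CB -/

set_option autoImplicit false

open scoped Classical

noncomputable section

namespace Pool.Agent.P8H41.DL

open Pool.Agent.Y63.NV Pool.Agent.P8H58.DL

/-- Fourier inversion -/
theorem fourier {p : ℕ} [Fact p.Prime] {F : Type} [Field F] [IsAlgClosed F] [CharP F p] {V : Type}
    [CommGroup V] [Fintype V] (hV : ¬ p ∣ Nat.card V) (f : V → F)
    (h : ∀ μ : V →* F, ∑ v, (μ v)⁻¹ * f v = 0) : f = 0 := by
  have hV' : (Nat.card V : F) ≠ 0 := fun h0 => hV ((CharP.cast_eq_zero_iff F p _).1 h0)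
  have hE : NeZero ((Monoid.exponent V : ℕ) : F) := by
    refine ⟨fun h0 => hV' ?_⟩
    obtain ⟨c, hc⟩ := Group.exponent_dvd_nat_card (G := V)
    rw [hc, Nat.cast_mul, h0, zero_mul]
  have hroots : HasEnoughRootsOfUnity F (Monoid.exponent V) := inferInstance
  have hcard := CommGroup.card_monoidHom_of_hasEnoughRootsOfUnity V F
  have hfin : Finite (V →* Fˣ) := by
    obtain ⟨e⟩ := CommGroup.monoidHom_mulEquiv_of_hasEnoughRootsOfUnity V F
    exact Finite.of_equiv V e.symm.toEquiv
  letI : Fintype (V →* Fˣ) := Fintype.ofFinite _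
  let g : (V →* Fˣ) → (V → F) := fun μ v => (μ v : F)
  have hli : LinearIndependent F g := by
    have h1 := linearIndependent_monoidHom V F
    have h2 := h1.comp (fun μ : V →* Fˣ => (Units.coeHom F).comp μ) (by
      intro μ ν hμν
      ext v
      have := DFunLike.congr_fun hμν v
      exact this)
    exact h2
  have hspan : Submodule.span F (Set.range g) = ⊤ := by
    apply hli.span_eq_top_of_card_eq_finrank'
    rw [Module.finrank_fintype_fun_eq_card, ← Nat.card_eq_fintype_card, hcard,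
      Nat.card_eq_fintype_card]
  let L : (V → F) →ₗ[F] F :=
    { toFun := fun u => ∑ v, u v * f v
      map_add' := fun a b => by
        simp only [Pi.add_apply, add_mul, Finset.sum_add_distrib]
      map_smul' := fun c a => by
        simp only [Pi.smul_apply, smul_eq_mul, RingHom.id_apply, Finset.mul_sum, mul_assoc] }
  have hL : L = 0 := by
    apply LinearMap.ext_on_range hspan
    intro μ
    have h1 := h ((Units.coeHom F).comp μ⁻¹)
    show ∑ v, (μ v : F) * f v = 0
    rw [← h1]
    refine Finset.sum_congr rfl fun v _ => ?_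
    congr 1
    show (μ v : F) = (((μ⁻¹ v : Fˣ) : F))⁻¹
    rw [MonoidHom.inv_apply, Units.val_inv_eq_inv_val, inv_inv]
  funext v
  have h1 := LinearMap.congr_fun hL (Pi.single v 1)
  have h2 : ∑ w, (Pi.single v (1 : F) : V → F) w * f w = 0 := h1
  rw [Finset.sum_eq_single v] at h2
  · simpa using h2
  · intro w _ hw
    rw [Pi.single_eq_of_ne hw, zero_mul]
  · intro h3
    exact absurd (Finset.mem_univ v) h3

section

variable {F : Type} [Field F] {V H : Type} [CommGroup V] [Fintype V] [Group H]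
  {φ : H →* MulAut V} {W : Type} [AddCommGroup W] [Module F W]

/-- the operator `∑_v μ(v)⁻¹ ρ(v)` -/
def E (ρ : Representation F (V ⋊[φ] H) W) (μ : V →* F) : W →ₗ[F] W :=
  ∑ v : V, (μ v)⁻¹ • ρ (SemidirectProduct.inl v)

theorem mu_ne (μ : V →* F) (v : V) : μ v ≠ 0 := by
  intro h
  have h1 : μ v * μ v⁻¹ = 1 := by rw [← map_mul, mul_inv_cancel, map_one]
  rw [h, zero_mul] at h1
  exact zero_ne_one h1

theorem mu_inv (μ : V →* F) (v : V) : μ v⁻¹ = (μ v)⁻¹ := by
  have h1 : μ v * μ v⁻¹ = 1 := by rw [← map_mul, mul_inv_cancel, map_one]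
  exact (inv_eq_of_mul_eq_one_right h1).symm

theorem inl_E (ρ : Representation F (V ⋊[φ] H) W) (μ : V →* F) (w : V) :
    ρ (SemidirectProduct.inl w) * E ρ μ = μ w • E ρ μ := by
  unfold E
  rw [Finset.mul_sum, Finset.smul_sum]
  refine Fintype.sum_equiv (Equiv.mulLeft w) _ _ fun v => ?_
  rw [mul_smul_comm, ← map_mul, ← map_mul, Equiv.coe_mulLeft, map_mul μ, smul_smul, mul_inv]
  congr 1
  rw [← mul_assoc, mul_inv_cancel₀ (mu_ne μ w), one_mul]

theorem E_mul (ρ : Representation F (V ⋊[φ] H) W) (μ ν : V →* F) :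
    E ρ μ * E ρ ν = (∑ v : V, (μ v)⁻¹ * ν v) • E ρ ν := by
  conv_lhs => unfold E
  rw [Finset.sum_mul, Finset.sum_smul]
  refine Finset.sum_congr rfl fun v _ => ?_
  have := inl_E ρ ν v
  unfold E at this ⊢
  rw [smul_mul_assoc, this, smul_smul]

theorem orth (μ ν : V →* F) (h : μ ≠ ν) : ∑ v : V, (μ v)⁻¹ * ν v = 0 := by
  obtain ⟨w, hw⟩ : ∃ w, μ w ≠ ν w := by
    by_contra hc
    push Not at hc
    exact h (MonoidHom.ext hc)
  have h1 : ∑ v : V, (μ v)⁻¹ * ν v = ((μ w)⁻¹ * ν w) * ∑ v : V, (μ v)⁻¹ * ν v := by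
    rw [Finset.mul_sum]
    symm
    refine Fintype.sum_equiv (Equiv.mulLeft w) _ _ fun v => ?_
    rw [Equiv.coe_mulLeft, map_mul, map_mul, mul_inv]
    ring
  by_contra h0
  have h2 : (μ w)⁻¹ * ν w = 1 := by
    have h3 : ((μ w)⁻¹ * ν w - 1) * ∑ v : V, (μ v)⁻¹ * ν v = 0 := by
      rw [sub_mul, one_mul, ← h1, sub_self]
    rcases mul_eq_zero.1 h3 with h4 | h4
    · exact sub_eq_zero.1 h4
    · exact absurd h4 h0
  apply hw
  field_simp [mu_ne μ w] at h2
  exact h2.symm

theorem diag (μ : V →* F) : ∑ v : V, (μ v)⁻¹ * μ v = (Nat.card V : F) := by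
  rw [Finset.sum_congr rfl fun v _ => inv_mul_cancel₀ (mu_ne μ v), Finset.sum_const,
    Finset.card_univ, nsmul_eq_mul, mul_one, Nat.card_eq_fintype_card]

/-- the twisted character `μ ∘ φ(h)⁻¹` -/
def tw (φ : H →* MulAut V) (μ : V →* F) (h : H) : V →* F :=
  μ.comp (φ h⁻¹).toMonoidHom

theorem tw_apply (μ : V →* F) (h : H) (v : V) : tw φ μ h v = μ (φ h⁻¹ v) := rfl

theorem inr_E (ρ : Representation F (V ⋊[φ] H) W) (μ : V →* F) (h : H) :
    ρ (SemidirectProduct.inr h) * E ρ μ = E ρ (tw φ μ h) * ρ (SemidirectProduct.inr h) := by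
  unfold E
  rw [Finset.mul_sum, Finset.sum_mul]
  refine Fintype.sum_equiv (φ h).toEquiv _ _ fun v => ?_
  rw [mul_smul_comm, smul_mul_assoc, ← map_mul, ← map_mul]
  congr 1
  · rw [tw_apply]
    congr 2
    show v = φ h⁻¹ (φ h v)
    rw [map_inv, MulAut.inv_apply_self]
  · congr 1
    ext
    · simp
    · simp

theorem trace_eq [FiniteDimensional F W] (ρ : Representation F (V ⋊[φ] H) W) (μ : V →* F)
    (h : H) : ∑ v : V, (μ v)⁻¹ * ρ.character ⟨v, h⟩ =
      LinearMap.trace F W (E ρ μ * ρ (SemidirectProduct.inr h)) := by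
  unfold E
  rw [Finset.sum_mul, map_sum]
  refine Finset.sum_congr rfl fun v _ => ?_
  rw [smul_mul_assoc, map_smul, ← map_mul, smul_eq_mul]
  congr 1
  show LinearMap.trace F W (ρ ⟨v, h⟩) = _
  congr 2
  ext
  · simp
  · simp

/-- `h` does not stabilise `μ` -/
theorem trace_zero [FiniteDimensional F W] (hV : (Nat.card V : F) ≠ 0)
    (ρ : Representation F (V ⋊[φ] H) W) (μ : V →* F) (h : H) (hh : tw φ μ h ≠ μ) :
    LinearMap.trace F W (E ρ μ * ρ (SemidirectProduct.inr h)) = 0 := by
  have h1 : (Nat.card V : F) * LinearMap.trace F W (E ρ μ * ρ (SemidirectProduct.inr h)) = 0 := by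
    have h2 := E_mul ρ μ μ
    rw [diag] at h2
    rw [← smul_eq_mul, ← map_smul, ← smul_mul_assoc, ← h2, mul_assoc, LinearMap.trace_mul_comm,
      mul_assoc, inr_E, ← mul_assoc, E_mul, orth _ _ hh.symm, zero_smul, zero_mul, map_zero]
  rcases mul_eq_zero.1 h1 with h3 | h3
  · exact absurd h3 hV
  · exact h3

/-- `μ` is not conjugate to `l` -/
theorem E_zero (ρ : Representation F (V ⋊[φ] H) W) (hirr : ρ.IsIrreducible) (l μ : V →* F)
    (hl : E ρ l ≠ 0) (hμ : ∀ h : H, tw φ l h ≠ μ) : E ρ μ = 0 := by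
  haveI := hirr
  let N : Subrepresentation ρ :=
    { toSubmodule :=
        { carrier := {w | ∀ g, E ρ μ (ρ g w) = 0}
          add_mem' := by
            intro a b ha hb g
            rw [map_add, map_add, ha g, hb g, add_zero]
          zero_mem' := by
            intro g
            rw [map_zero, map_zero]
          smul_mem' := by
            intro c a ha g
            rw [map_smul, map_smul, ha g, smul_zero] }
      apply_mem_toSubmodule := by
        intro g v hv g'
        have h1 := hv (g' * g)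
        rw [map_mul] at h1
        exact h1 }
  have hN : ∀ w, E ρ l w ∈ N.toSubmodule := by
    intro w g
    have h1 : ρ g = ρ (SemidirectProduct.inl g.left) * ρ (SemidirectProduct.inr g.right) := by
      rw [← map_mul, SemidirectProduct.inl_left_mul_inr_right]
    have h2 : E ρ μ * ρ g * E ρ l = 0 := by
      have h3 : E ρ μ * ρ (SemidirectProduct.inl g.left) = μ g.left • E ρ μ := by
        unfold E
        rw [Finset.sum_mul, Finset.smul_sum]
        refine Fintype.sum_equiv (Equiv.mulRight g.left) _ _ fun v => ?_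
        rw [smul_mul_assoc, ← map_mul, ← map_mul, Equiv.coe_mulRight, map_mul μ, smul_smul, mul_inv]
        congr 1
        rw [mul_comm (μ v)⁻¹, ← mul_assoc, mul_inv_cancel₀ (mu_ne μ g.left), one_mul]
      rw [h1, ← mul_assoc, h3, mul_assoc, inr_E, ← mul_assoc, smul_mul_assoc, E_mul,
        orth _ _ (fun h => hμ g.right h.symm), zero_smul, smul_zero, zero_mul]
    have h4 := LinearMap.congr_fun h2 w
    exact h4
  rcases eq_bot_or_eq_top N with h | h
  · exfalso
    apply hl
    ext w
    have h1 := hN w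
    rw [h] at h1
    exact h1
  · ext w
    have h1 : w ∈ N.toSubmodule := by rw [h]; exact Submodule.mem_top
    have h2 := h1 1
    rw [map_one] at h2
    exact h2

end

theorem cb : S_CB := by
  intro p _ F _ _ _ V H _ _ _ _ φ l S hD θ θ' hθ hθ' hne heq
  letI : Fintype V := Fintype.ofFinite V
  obtain ⟨hpV, hS⟩ := hD
  have hV' : (Nat.card V : F) ≠ 0 := fun h0 => hpV ((CharP.cast_eq_zero_iff F p _).1 h0)
  obtain ⟨W, _, _, _, ρ, hρ, rfl⟩ := hθ
  obtain ⟨W', _, _, _, ρ', hρ', rfl⟩ := hθ'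
  -- the component as a trace
  have hcomp : ∀ (W : Type) [AddCommGroup W] [Module F W] [FiniteDimensional F W]
      (ρ : Representation F (V ⋊[φ] H) W) (s : S), comp l S ρ.character s =
        (Nat.card V : F)⁻¹ * LinearMap.trace F W (E ρ l * ρ (SemidirectProduct.inr (s : H))) := by
    intro W _ _ _ ρ s
    unfold comp
    rw [finsum_eq_sum_of_fintype, trace_eq]
  have hE : ∀ (W : Type) [AddCommGroup W] [Module F W] [FiniteDimensional F W]
      (ρ : Representation F (V ⋊[φ] H) W), comp l S ρ.character ≠ 0 → E ρ l ≠ 0 := by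
    intro W _ _ _ ρ h h0
    apply h
    funext s
    rw [hcomp, h0, zero_mul, map_zero, mul_zero]
    rfl
  have hE1 := hE W ρ hne
  have hE2 := hE W' ρ' (by rw [← heq]; exact hne)
  -- conjugate characters
  have hconj : ∀ (W : Type) [AddCommGroup W] [Module F W] [FiniteDimensional F W]
      (ρ : Representation F (V ⋊[φ] H) W) (q h : H),
      LinearMap.trace F W (E ρ (tw φ l q) * ρ (SemidirectProduct.inr h)) =
        LinearMap.trace F W (E ρ l * ρ (SemidirectProduct.inr (q⁻¹ * h * q))) := by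
    intro W _ _ _ ρ q h
    have h1 : ρ (SemidirectProduct.inr q) * ρ (SemidirectProduct.inr (q⁻¹ * h)) =
        ρ (SemidirectProduct.inr h) := by
      rw [← map_mul, ← map_mul, mul_inv_cancel_left]
    rw [← h1, ← mul_assoc, ← inr_E, mul_assoc, LinearMap.trace_mul_comm, mul_assoc, ← map_mul,
      ← map_mul]
  have key : ∀ (μ : V →* F) (h : H),
      LinearMap.trace F W (E ρ μ * ρ (SemidirectProduct.inr h)) =
        LinearMap.trace F W' (E ρ' μ * ρ' (SemidirectProduct.inr h)) := by
    intro μ h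
    by_cases hst : tw φ μ h = μ
    swap
    · rw [trace_zero hV' ρ μ h hst, trace_zero hV' ρ' μ h hst]
    by_cases horb : ∃ q, tw φ l q = μ
    swap
    · push Not at horb
      rw [E_zero ρ hρ l μ hE1 horb, E_zero ρ' hρ' l μ hE2 horb, zero_mul, zero_mul, map_zero,
        map_zero]
    obtain ⟨q, rfl⟩ := horb
    rw [hconj, hconj]
    have hmem : q⁻¹ * h * q ∈ S := by
      rw [hS]
      intro v
      have h1 := DFunLike.congr_fun hst (φ h (φ q v))
      simp only [tw_apply] at h1
      have e1 : φ h⁻¹ (φ h (φ q v)) = φ q v := by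
        rw [map_inv, MulAut.inv_apply_self]
      have e2 : φ q⁻¹ (φ q v) = v := by rw [map_inv, MulAut.inv_apply_self]
      rw [e1, e2] at h1
      rw [h1]
      congr 1
      rw [map_mul, map_mul]
      rfl
    have h1 := hcomp W ρ ⟨_, hmem⟩
    have h2 := hcomp W' ρ' ⟨_, hmem⟩
    rw [heq, h2] at h1
    have h3 := mul_left_cancel₀ (inv_ne_zero hV') h1
    exact h3.symm
  funext x
  have hf := fourier hpV (fun v => ρ.character ⟨v, x.right⟩ - ρ'.character ⟨v, x.right⟩) (by
    intro μ
    simp only [mul_sub, Finset.sum_sub_distrib]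
    rw [trace_eq, trace_eq, key, sub_self])
  have h1 := congrFun hf x.left
  exact sub_eq_zero.1 h1

end Pool.Agent.P8H41.DL
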